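import Pool.Agent.Helper75.PX.Stmts5

/-! # Row CL3a (MP_ce4989_al): products of the nine monomials, characteristic three -/

set_option autoImplicit false

universe u

namespace Pool.Agent.Helper75.PX

/-- a monomial with exponents below three lies in the span -/
theorem cl3a_mem {F K A : Type*} [Field F] [Field K] [Algebra F K] [Ring A] [Algebra K A]
    (L : IntermediateField F K) (y u : A) (k l : ℕ) (hk : k < 3) (hl : l < 3) :
    y ^ k * u ^ l ∈ Submodule.span L (Set.range (e3c y u)) :=
  Submodule.subset_span ⟨(⟨k, hk⟩, ⟨l, hl⟩), rfl⟩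

/-- left multiplication by the first generator -/
theorem cl3a_y {F K A : Type*} [Field F] [Field K] [Algebra F K] [Ring A] [Algebra K A]
    (L : IntermediateField F K) (y u : A) (a c : K) (hD : D3a y u a c) (ha : a ∈ L)
    (x : A) (hx : x ∈ Submodule.span L (Set.range (e3c y u))) :
    y * x ∈ Submodule.span L (Set.range (e3c y u)) := by
  induction hx using Submodule.span_induction with
  | mem x hx =>
    obtain ⟨s, rfl⟩ := hx
    obtain ⟨⟨k, hk⟩, ⟨l, hl⟩⟩ := s
    change y * (y ^ k * u ^ l) ∈ _
    rw [← mul_assoc, ← pow_succ']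
    by_cases h2 : k + 1 < 3
    · exact cl3a_mem L y u (k + 1) l h2 hl
    · have hk2 : k = 2 := by omega
      subst hk2
      have h3 : y ^ (2 + 1) * u ^ l = y ^ 1 * u ^ l + a • (y ^ 0 * u ^ l) := by
        have h4 : y ^ (2 + 1) = y + a • (1 : A) := by
          rw [pow_succ, pow_two, hD.hx, Algebra.algebraMap_eq_smul_one]
        rw [h4, add_mul, smul_mul_assoc, pow_one, pow_zero]
      rw [h3]
      refine add_mem (cl3a_mem L y u 1 l (by norm_num) hl) ?_
      exact Submodule.smul_mem _ (⟨a, ha⟩ : L) (cl3a_mem L y u 0 l (by norm_num) hl)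
  | zero => rw [mul_zero]; exact zero_mem _
  | add a b _ _ ha hb => rw [mul_add]; exact add_mem ha hb
  | smul k a _ ha => rw [mul_smul_comm]; exact Submodule.smul_mem _ k ha

/-- left multiplication by the conjugate of the first generator -/
theorem cl3a_q {F K A : Type*} [Field F] [Field K] [Algebra F K] [Ring A] [Algebra K A]
    (L : IntermediateField F K) (y u : A) (a c : K) (hD : D3a y u a c) (ha : a ∈ L)
    (x : A) (hx : x ∈ Submodule.span L (Set.range (e3c y u))) :
    (y + 1) * x ∈ Submodule.span L (Set.range (e3c y u)) := by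
  rw [add_mul, one_mul]
  exact add_mem (cl3a_y L y u a c hD ha x hx) hx

/-- left multiplication by the second generator -/
theorem cl3a_u {F K A : Type*} [Field F] [Field K] [Algebra F K] [Ring A] [Algebra K A]
    (L : IntermediateField F K) (y u : A) (a c : K) (hD : D3a y u a c) (ha : a ∈ L) (hc : c ∈ L)
    (x : A) (hx : x ∈ Submodule.span L (Set.range (e3c y u))) :
    u * x ∈ Submodule.span L (Set.range (e3c y u)) := by
  induction hx using Submodule.span_induction with
  | mem x hx =>
    obtain ⟨s, rfl⟩ := hx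
    obtain ⟨⟨k, hk⟩, ⟨l, hl⟩⟩ := s
    change u * (y ^ k * u ^ l) ∈ _
    have h0 : u ^ (l + 1) ∈ Submodule.span L (Set.range (e3c y u)) := by
      by_cases h2 : l + 1 < 3
      · have := cl3a_mem L y u 0 (l + 1) (by norm_num) h2
        rwa [pow_zero, one_mul] at this
      · have hl2 : l = 2 := by omega
        subst hl2
        have h3 : u ^ (2 + 1) = c • (y ^ 0 * u ^ 0) := by
          rw [pow_succ, pow_two, hD.hj, pow_zero, pow_zero, mul_one, Algebra.smul_def, mul_one]
        rw [h3]
        exact Submodule.smul_mem _ (⟨c, hc⟩ : L) (cl3a_mem L y u 0 0 (by norm_num) (by norm_num))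
    have h1 : u * (y ^ k * u ^ l) = (y + 1) ^ k * u ^ (l + 1) := by
      have h4 : ∀ n : ℕ, u * y ^ n = (y + 1) ^ n * u := by
        intro n
        induction n with
        | zero => simp
        | succ n ih => rw [pow_succ, ← mul_assoc, ih, mul_assoc, hD.hjx, ← mul_assoc, ← pow_succ]
      rw [← mul_assoc, h4, mul_assoc, ← pow_succ']
    rw [h1]
    clear h1 hk
    induction k with
    | zero => rwa [pow_zero, one_mul]
    | succ k ih =>
      rw [pow_succ', mul_assoc]
      exact cl3a_q L y u a c hD ha _ ih
  | zero => rw [mul_zero]; exact zero_mem _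
  | add a b _ _ ha hb => rw [mul_add]; exact add_mem ha hb
  | smul k a _ ha => rw [mul_smul_comm]; exact Submodule.smul_mem _ k ha

/-- row CL3a -/
theorem st_CL3a : ST_CL3a.{u} := by
  intro F K A _ _ _ _ _ L y u a c hD ha hc s s'
  have h0 : e3c y u s' ∈ Submodule.span L (Set.range (e3c y u)) := Submodule.subset_span ⟨s', rfl⟩
  have h1 : ∀ n : ℕ, u ^ n * e3c y u s' ∈ Submodule.span L (Set.range (e3c y u)) := by
    intro n
    induction n with
    | zero => rwa [pow_zero, one_mul]
    | succ n ih =>
      rw [pow_succ', mul_assoc]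
      exact cl3a_u L y u a c hD ha hc _ ih
  have h2 : ∀ m n : ℕ, y ^ m * (u ^ n * e3c y u s') ∈
      Submodule.span L (Set.range (e3c y u)) := by
    intro m n
    induction m with
    | zero => rw [pow_zero, one_mul]; exact h1 n
    | succ m ih =>
      rw [pow_succ', mul_assoc]
      exact cl3a_y L y u a c hD ha _ ih
  have h3 : e3c y u s * e3c y u s' = y ^ (s.1 : ℕ) * (u ^ (s.2 : ℕ) * e3c y u s') := by
    rw [← mul_assoc]
    rfl
  rw [h3]
  exact h2 _ _

end Pool.Agent.Helper75.PX
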