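import Pool.Agent.Helper75.PX.Stmts4

/-! # Row TRR: splitting with rational traces -/

set_option autoImplicit false

universe u

open Module TensorProduct

namespace Pool.Agent.Helper75.PX

theorem trr_bij {K A S : Type u} [Field K] [Ring A] [Algebra K A] [Field S] [Algebra K S] {n : ℕ}
    (hn : 0 < n) (hA : finrank K A = n ^ 2)
    (Ψ : A →ₐ[K] Matrix (Fin n) (Fin n) S) (hΨ : Submodule.span S (Set.range Ψ) = ⊤) :
    ∃ e : (S ⊗[K] A) ≃ₐ[S] Matrix (Fin n) (Fin n) S, ∀ a, e (1 ⊗ₜ[K] a) = Ψ a := by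
  have : FiniteDimensional K A := FiniteDimensional.of_finrank_pos (by rw [hA]; positivity)
  let f : S ⊗[K] A →ₐ[S] Matrix (Fin n) (Fin n) S :=
    Algebra.TensorProduct.lift (Algebra.ofId S _) Ψ (fun s a => Algebra.commutes s (Ψ a))
  have hf : ∀ a, f (1 ⊗ₜ[K] a) = Ψ a := by
    intro a
    simp [f]
  have hs : Function.Surjective f := by
    have h1 : LinearMap.range f.toLinearMap = ⊤ := by
      rw [eq_top_iff, ← hΨ, Submodule.span_le]
      rintro _ ⟨a, rfl⟩
      exact ⟨1 ⊗ₜ a, hf a⟩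
    exact LinearMap.range_eq_top.1 h1
  have hd : finrank S (S ⊗[K] A) = finrank S (Matrix (Fin n) (Fin n) S) := by
    rw [Module.finrank_baseChange, Module.finrank_matrix, hA]
    simp only [Fintype.card_fin, Module.finrank_self, mul_one]
    ring
  have hi : Function.Injective f.toLinearMap :=
    (LinearMap.injective_iff_surjective_of_finrank_eq_finrank hd).2 hs
  exact ⟨AlgEquiv.ofBijective f ⟨hi, hs⟩, hf⟩

theorem trr_trace {S : Type u} [Field S] {n : ℕ}
    (φ : Matrix (Fin n) (Fin n) S ≃ₐ[S] Matrix (Fin n) (Fin n) S) (M : Matrix (Fin n) (Fin n) S) :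
    Matrix.trace (φ M) = Matrix.trace M := by
  let c : Matrix (Fin n) (Fin n) S ≃ₐ[S] Module.End S (Fin n → S) := Matrix.toLinAlgEquiv'
  obtain ⟨T, hT⟩ := AlgEquiv.eq_linearEquivConjAlgEquiv ((c.symm.trans φ).trans c)
  have h1 : c (φ M) = T.conjAlgEquiv S (c M) := by
    rw [← hT]
    simp
  have h2 : LinearMap.trace S (Fin n → S) (c (φ M)) = LinearMap.trace S (Fin n → S) (c M) := by
    rw [h1]
    exact LinearMap.trace_conj' _ T
  have h3 : ∀ N : Matrix (Fin n) (Fin n) S,
      LinearMap.trace S (Fin n → S) (c N) = Matrix.trace N := fun N =>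
    Matrix.trace_toLin'_eq N
  rwa [h3, h3] at h2

theorem trr_span {K A S Ω : Type u} [Field K] [Ring A] [Algebra K A] [Field S] [Algebra K S]
    [Field Ω] [Algebra K Ω] {n : ℕ} (ι : S →ₐ[K] Ω) (Ψ : A →ₐ[K] Matrix (Fin n) (Fin n) S)
    (hΨ : Submodule.span S (Set.range Ψ) = ⊤) :
    Submodule.span Ω (Set.range (ι.mapMatrix.comp Ψ)) = ⊤ := by
  have h1 : ∀ N : Matrix (Fin n) (Fin n) S,
      ι.mapMatrix N ∈ Submodule.span Ω (Set.range (ι.mapMatrix.comp Ψ)) := by
    intro N
    have hN : N ∈ Submodule.span S (Set.range Ψ) := by rw [hΨ]; trivial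
    induction hN using Submodule.span_induction with
    | mem x hx => obtain ⟨a, rfl⟩ := hx; exact Submodule.subset_span ⟨a, rfl⟩
    | zero => rw [map_zero]; exact Submodule.zero_mem _
    | add x y _ _ hx hy => rw [map_add]; exact Submodule.add_mem _ hx hy
    | smul c x _ hx =>
      have h2 : ι.mapMatrix (c • x) = ι c • ι.mapMatrix x := by
        ext i j
        simp
      rw [h2]
      exact Submodule.smul_mem _ _ hx
  rw [Submodule.eq_top_iff']
  intro M
  rw [Matrix.matrix_eq_sum_single M]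
  refine Submodule.sum_mem _ fun i _ => Submodule.sum_mem _ fun j _ => ?_
  have h2 : Matrix.single i j (M i j) = M i j • ι.mapMatrix (Matrix.single i j 1) := by
    ext a b
    by_cases hab : i = a ∧ j = b
    · obtain ⟨rfl, rfl⟩ := hab
      simp
    · simp [Matrix.single_apply_of_ne _ _ _ _ _ hab]
  rw [h2]
  exact Submodule.smul_mem _ _ (h1 _)

theorem trr_map {K S Ω : Type u} [Field K] [Field S] [Algebra K S]
    [Field Ω] [Algebra K Ω] {n : ℕ} (ι : S →ₐ[K] Ω) (N : Matrix (Fin n) (Fin n) S) :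
    Matrix.trace (ι.mapMatrix N) = ι (Matrix.trace N) := by
  simp [Matrix.trace]

theorem st_TRR (hS : ST_SPS.{u}) : ST_TRR.{u} := by
  intro K A _ _ _ _ _ n hn hA
  obtain ⟨Ψ, hΨ⟩ := hS K A n hn hA
  have htr : ∀ x : A, ∃ k : K, Matrix.trace (Ψ x) = algebraMap K (SeparableClosure K) k := by
    intro x
    have hfix : ∀ σ : SeparableClosure K ≃ₐ[K] SeparableClosure K,
        σ (Matrix.trace (Ψ x)) = Matrix.trace (Ψ x) := by
      intro σ
      have hσ := trr_span (σ : SeparableClosure K →ₐ[K] SeparableClosure K) Ψ hΨ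
      obtain ⟨e, he⟩ := trr_bij hn hA Ψ hΨ
      obtain ⟨e', he'⟩ := trr_bij hn hA _ hσ
      have h1 := trr_trace (e.symm.trans e') (Ψ x)
      have h2 : (e.symm.trans e') (Ψ x) =
          (σ : SeparableClosure K →ₐ[K] SeparableClosure K).mapMatrix (Ψ x) := by
        rw [← he x, AlgEquiv.trans_apply, AlgEquiv.symm_apply_apply, he', he x]
        rfl
      rw [h2, trr_map] at h1
      exact h1
    have h3 := (InfiniteGalois.mem_bot_iff_fixed (k := K) (K := SeparableClosure K) _).2 hfix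
    obtain ⟨k, hk⟩ := IntermediateField.mem_bot.1 h3
    exact ⟨k, hk.symm⟩
  let ι : SeparableClosure K →ₐ[K] AlgebraicClosure K :=
    (separableClosure K (AlgebraicClosure K)).val
  refine ⟨ι.mapMatrix.comp Ψ, trr_span ι Ψ hΨ, fun x => ?_⟩
  obtain ⟨k, hk⟩ := htr x
  refine ⟨k, ?_⟩
  rw [AlgHom.comp_apply, trr_map, hk, AlgHom.commutes]

end Pool.Agent.Helper75.PX
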