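import Pool.Agent.Helper75.PX.Stmts

/-!
# PX, row DESC: descent along a basis
-/

set_option autoImplicit false

universe u

open Module TensorProduct

namespace Pool.Agent.Helper75.PX

namespace DescAux

variable {L K A : Type u} [Field L] [Field K] [Algebra L K] [Ring A] [Algebra K A] [Algebra L A]
  [IsScalarTower L K A] {ι : Type} [Fintype ι]

omit [Fintype ι] in
theorem DESC_li (e : Basis ι K A) : LinearIndependent L e := by
  refine LinearIndependent.restrict_scalars (K := K) ?_ e.linearIndependent
  intro a b hab
  simp only [Algebra.smul_def, mul_one] at hab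
  exact (algebraMap L K).injective hab

omit [Algebra L K] [IsScalarTower L K A] [Fintype ι] in
theorem DESC_mul (e : Basis ι K A)
    (h2 : ∀ s t, e s * e t ∈ Submodule.span L (Set.range e)) (x y : A)
    (hx : x ∈ Submodule.span L (Set.range e)) (hy : y ∈ Submodule.span L (Set.range e)) :
    x * y ∈ Submodule.span L (Set.range e) := by
  induction hx using Submodule.span_induction with
  | mem x hx =>
    obtain ⟨s, rfl⟩ := hx
    induction hy using Submodule.span_induction with
    | mem y hy => obtain ⟨t, rfl⟩ := hy; exact h2 s t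
    | zero => rw [mul_zero]; exact Submodule.zero_mem _
    | add y z _ _ hy hz => rw [mul_add]; exact Submodule.add_mem _ hy hz
    | smul c y _ hy => rw [mul_smul_comm]; exact Submodule.smul_mem _ _ hy
  | zero => rw [zero_mul]; exact Submodule.zero_mem _
  | add x z _ _ hx hz => rw [add_mul]; exact Submodule.add_mem _ hx hz
  | smul c x _ hx => rw [smul_mul_assoc]; exact Submodule.smul_mem _ _ hx

theorem DESC_gen [Algebra.IsCentral K A] [IsSimpleRing A] (e : Basis ι K A)
    (h1 : (1 : A) ∈ Submodule.span L (Set.range e))
    (h2 : ∀ s t, e s * e t ∈ Submodule.span L (Set.range e)) :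
    ∃ (B : Type u) (_ : Ring B) (_ : Algebra L B), Algebra.IsCentral L B ∧ IsSimpleRing B ∧
      finrank L B = Fintype.card ι ∧ Nonempty ((K ⊗[L] B) ≃ₐ[K] A) := by
  classical
  set P : Submodule L A := Submodule.span L (Set.range e) with hP
  set B : Subalgebra L A := P.toSubalgebra h1 (DESC_mul e h2) with hB
  have hBP : Subalgebra.toSubmodule B = P := Submodule.toSubalgebra_toSubmodule _ _ _
  let bB : Basis ι L B :=
    (Basis.span (DESC_li (L := L) e)).map ((LinearEquiv.ofEq _ _ hBP.symm).trans
      B.toSubmoduleEquiv)
  have hbB : ∀ i, ((bB i : B) : A) = e i := by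
    intro i
    have : bB i = B.toSubmoduleEquiv (LinearEquiv.ofEq _ _ hBP.symm
        (Basis.span (DESC_li (L := L) e) i)) := rfl
    rw [this, Basis.span_apply]
    rfl
  -- coordinates of the elements of `B`
  have hrep : ∀ (x : B) (i : ι), e.repr (x : A) i = algebraMap L K (bB.repr x i) := by
    intro x i
    have hx : (x : A) = ∑ j, (algebraMap L K (bB.repr x j)) • e j := by
      conv_lhs => rw [← bB.sum_repr x]
      rw [AddSubmonoidClass.coe_finsetSum]
      refine Finset.sum_congr rfl fun j _ => ?_
      rw [Subalgebra.coe_smul, hbB, algebraMap_smul]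
    rw [hx]
    simp only [map_sum, map_smul, Finsupp.coe_finsetSum, Finset.sum_apply, Finsupp.smul_apply,
      Basis.repr_self, smul_eq_mul]
    rw [Finset.sum_eq_single i]
    · simp
    · intro j _ hj
      simp [hj]
    · intro h
      exact absurd (Finset.mem_univ i) h
  -- the map from the tensor product
  let φ : (K ⊗[L] B) →ₐ[K] A :=
    Algebra.TensorProduct.lift (Algebra.ofId K A) B.val (fun x y => Algebra.commutes x (y : A))
  have hφ : ∀ (k : K) (x : B), φ (k ⊗ₜ x) = k • (x : A) := by
    intro k x
    refine (Algebra.TensorProduct.lift_tmul (Algebra.ofId K A) B.val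
      (fun x y => Algebra.commutes x (y : A)) k x).trans ?_
    rw [Algebra.smul_def]
    rfl
  have hbij : Function.Bijective φ := by
    have : φ.toLinearMap =
        ((Algebra.TensorProduct.basis K bB).equiv e (Equiv.refl ι)).toLinearMap := by
      refine Basis.ext (Algebra.TensorProduct.basis K bB) fun i => ?_
      rw [LinearEquiv.coe_coe, Basis.equiv_apply, Algebra.TensorProduct.basis_apply]
      change φ (1 ⊗ₜ bB i) = _
      rw [hφ, one_smul, hbB]
      rfl
    have h3 : (φ : (K ⊗[L] B) → A) =
        ((Algebra.TensorProduct.basis K bB).equiv e (Equiv.refl ι)) := by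
      funext x
      exact congrArg (fun f : (K ⊗[L] B) →ₗ[K] A => f x) this
    rw [h3]
    exact LinearEquiv.bijective _
  have : Nontrivial A := inferInstance
  have : Nontrivial B := inferInstance
  refine ⟨B, inferInstance, inferInstance, ⟨?_⟩, ?_, ?_, ⟨AlgEquiv.ofBijective φ hbij⟩⟩
  · -- central
    intro x hx
    have hcomm : ∀ a : A, a * (x : A) = (x : A) * a := by
      intro a
      rw [← e.sum_repr a, Finset.sum_mul, Finset.mul_sum]
      refine Finset.sum_congr rfl fun i _ => ?_
      rw [smul_mul_assoc, mul_smul_comm, ← hbB]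
      congr 1
      exact congrArg Subtype.val ((Subalgebra.mem_center_iff.1 hx) (bB i))
    have hxc : (x : A) ∈ Subalgebra.center K A := Subalgebra.mem_center_iff.2 hcomm
    obtain ⟨k, hk⟩ := Algebra.mem_bot.1 (Algebra.IsCentral.out hxc)
    -- a coordinate of `1` which does not vanish
    obtain ⟨i, hi⟩ : ∃ i, bB.repr 1 i ≠ 0 := by
      by_contra hcon
      push Not at hcon
      have : bB.repr (1 : B) = 0 := Finsupp.ext hcon
      rw [LinearEquiv.map_eq_zero_iff] at this
      exact one_ne_zero this
    have e1 := hrep x i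
    have e2 := hrep 1 i
    rw [← hk, Algebra.algebraMap_eq_smul_one, map_smul, Finsupp.smul_apply, smul_eq_mul] at e1
    rw [Subalgebra.coe_one] at e2
    rw [e2] at e1
    have hi' : algebraMap L K (bB.repr 1 i) ≠ 0 := by
      rw [Ne, map_eq_zero]; exact hi
    have hk' : k = algebraMap L K (bB.repr x i / bB.repr 1 i) := by
      rw [map_div₀, eq_div_iff hi']; exact e1
    refine Algebra.mem_bot.2 ⟨bB.repr x i / bB.repr 1 i, ?_⟩
    refine Subtype.ext ?_
    rw [← hk, hk', Subalgebra.coe_algebraMap, IsScalarTower.algebraMap_apply L K A]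
  · -- simple
    refine IsSimpleRing.of_eq_bot_or_eq_top fun I => ?_
    by_contra hcon
    push Not at hcon
    obtain ⟨hbot, htop⟩ := hcon
    let IL : Submodule L B :=
      { carrier := {x | x ∈ I}
        add_mem' := fun {a b} ha hb => I.add_mem ha hb
        zero_mem' := I.zero_mem
        smul_mem' := fun c x hx => by
          have : c • x = (c • (1 : B)) * x := by rw [smul_mul_assoc, one_mul]
          change c • x ∈ I
          rw [this]
          exact I.mul_mem_left _ _ hx }
    have hILmem : ∀ x : B, x ∈ IL ↔ x ∈ I := fun x => Iff.rfl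
    have hlt : IL < ⊤ := by
      refine lt_top_iff_ne_top.2 fun h => htop ?_
      refine eq_top_iff.2 fun x _ => ?_
      have : x ∈ IL := by rw [h]; exact Submodule.mem_top
      exact this
    obtain ⟨f, hf0, hf⟩ := Submodule.exists_le_ker_of_lt_top IL hlt
    let g : A →ₗ[K] K := e.constr K (fun i => algebraMap L K (f (bB i)))
    have hg : ∀ x : B, g (x : A) = algebraMap L K (f x) := by
      intro x
      rw [← e.sum_repr (x : A), map_sum]
      conv_rhs => rw [← bB.sum_repr x, map_sum, map_sum]
      refine Finset.sum_congr rfl fun i _ => ?_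
      rw [map_smul, map_smul, hrep]
      simp only [g, Basis.constr_basis, smul_eq_mul, map_mul]
    -- the span of `I`
    let J : Submodule K A := Submodule.span K ((fun x : B => (x : A)) '' {x | x ∈ I})
    have hJg : ∀ a ∈ J, g a = 0 := by
      intro a ha
      have : J ≤ LinearMap.ker g := by
        refine Submodule.span_le.2 ?_
        rintro _ ⟨x, hx, rfl⟩
        have : f x = 0 := hf ((hILmem x).2 hx)
        change g (x : A) = 0
        rw [hg, this, map_zero]
      exact this ha
    have hJl : ∀ a x : A, x ∈ J → a * x ∈ J := by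
      intro a x hx
      induction hx using Submodule.span_induction with
      | mem x hx =>
        obtain ⟨b, hb, rfl⟩ := hx
        rw [← e.sum_repr a, Finset.sum_mul]
        refine Submodule.sum_mem _ fun i _ => ?_
        rw [smul_mul_assoc, ← hbB]
        refine Submodule.smul_mem _ _ (Submodule.subset_span ⟨bB i * b, ?_, rfl⟩)
        exact I.mul_mem_left _ _ hb
      | zero => rw [mul_zero]; exact Submodule.zero_mem _
      | add y z _ _ hy hz => rw [mul_add]; exact Submodule.add_mem _ hy hz
      | smul c y _ hy => rw [mul_smul_comm]; exact Submodule.smul_mem _ _ hy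
    have hJr : ∀ a x : A, x ∈ J → x * a ∈ J := by
      intro a x hx
      induction hx using Submodule.span_induction with
      | mem x hx =>
        obtain ⟨b, hb, rfl⟩ := hx
        rw [← e.sum_repr a, Finset.mul_sum]
        refine Submodule.sum_mem _ fun i _ => ?_
        rw [mul_smul_comm, ← hbB]
        refine Submodule.smul_mem _ _ (Submodule.subset_span ⟨b * bB i, ?_, rfl⟩)
        exact I.mul_mem_right _ _ hb
      | zero => rw [zero_mul]; exact Submodule.zero_mem _
      | add y z _ _ hy hz => rw [add_mul]; exact Submodule.add_mem _ hy hz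
      | smul c y _ hy => rw [smul_mul_assoc]; exact Submodule.smul_mem _ _ hy
    let JJ : TwoSidedIdeal A := TwoSidedIdeal.mk' (J : Set A) J.zero_mem
      (fun {x y} hx hy => J.add_mem hx hy) (fun {x} hx => J.neg_mem hx)
      (fun {x y} hy => hJl x y hy) (fun {x y} hx => hJr y x hx)
    have hJJ : ∀ a, a ∈ JJ ↔ a ∈ J := fun a => TwoSidedIdeal.mem_mk' _ _ _ _ _ _ _
    have hne : JJ ≠ ⊥ := by
      intro h
      apply hbot
      refine eq_bot_iff.2 fun x hx => ?_
      have hx1 : (x : A) ∈ JJ := (hJJ _).2 (Submodule.subset_span ⟨x, hx, rfl⟩)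
      rw [h, TwoSidedIdeal.mem_bot] at hx1
      rw [TwoSidedIdeal.mem_bot]
      exact Subtype.ext hx1
    have hJtop : JJ = ⊤ := (eq_bot_or_eq_top JJ).resolve_left hne
    apply hf0
    refine LinearMap.ext fun x => ?_
    have hx1 : (x : A) ∈ JJ := by rw [hJtop]; trivial
    have := hJg _ ((hJJ _).1 hx1)
    rw [hg, map_eq_zero] at this
    exact this
  · exact finrank_eq_card_basis bB

end DescAux

/-- descent along a basis -/
theorem st_DESC : ST_DESC.{u} := by
  intro F K A _ _ _ _ _ _ _ L ι _ e h1 h2
  exact DescAux.DESC_gen e h1 h2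

end Pool.Agent.Helper75.PX
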