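import Pool.Agent.Helper75.PX.Stmts2

/-!
# PX, row MCR: dimension of a left ideal of a matrix algebra over a division ring
-/

set_option autoImplicit false

universe u

open Module TensorProduct

namespace Pool.Agent.Helper75.PX

/-- dimension of a left ideal of a matrix algebra over a division ring -/
theorem st_MCR : ST_MCR.{u} := by
  intro K D _ _ _ _ r e
  let R : Submodule D (Fin r → D) := LinearMap.range (Matrix.vecMulLinear e)
  have hfin : Module.Finite K R :=
    Module.Finite.of_injective (R.subtype.restrictScalars K) Subtype.val_injective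
  have hmem : ∀ x : Matrix (Fin r) (Fin r) D,
      x ∈ LinearMap.range (LinearMap.mulRight K e) ↔ ∀ k, x k ∈ R := by
    intro x
    constructor
    · rintro ⟨y, rfl⟩ k
      refine ⟨y k, ?_⟩
      rw [Matrix.vecMulLinear_apply, LinearMap.mulRight_apply]
      exact (Matrix.mul_apply_eq_vecMul y e k).symm
    · intro h
      choose y hy using h
      refine ⟨Matrix.of y, ?_⟩
      rw [LinearMap.mulRight_apply]
      funext k
      rw [Matrix.mul_apply_eq_vecMul]
      exact hy k
  let Φ : LinearMap.range (LinearMap.mulRight K e) ≃ₗ[K] (Fin r → R) :=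
    { toFun := fun x k => ⟨x.1 k, (hmem x.1).1 x.2 k⟩
      invFun := fun f => ⟨Matrix.of fun k => (f k).1, (hmem _).2 fun k => (f k).2⟩
      left_inv := fun x => rfl
      right_inv := fun f => rfl
      map_add' := fun x y => rfl
      map_smul' := fun c x => rfl }
  rw [Φ.finrank_eq, Module.finrank_pi_fintype, Finset.sum_const, Finset.card_univ,
    Fintype.card_fin, smul_eq_mul, ← Module.finrank_mul_finrank K D R, ← mul_assoc]
  exact Dvd.intro _ rfl

end Pool.Agent.Helper75.PX
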