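import Pool.Agent.Helper75.PX.Stmts5
import Pool.Agent.Helper63.PX.V3
import Pool.Agent.Helper31.PX.I3

/-! # Row TZ3: an element with central cube, every characteristic -/

set_option autoImplicit false

universe u

open Module Polynomial

namespace Pool.Agent.Helper75.PX

theorem st_TZ3 (h1 : ST_TAU.{u}) (h2 : ST_MPD.{u}) (h3 : ST_MDV.{u}) (h5 : ST_MIN.{u}) :
    ST_TZ3.{u} := by
  intro K D _ _ _ _ hd
  have : FiniteDimensional K D := Module.finite_of_finrank_pos (by rw [hd]; norm_num)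
  obtain ⟨τ, ⟨x0, hx0⟩, hτ⟩ := h1 K D hd
  -- an element outside `K`
  obtain ⟨y, hy⟩ : ∃ y : D, ∀ k : K, y ≠ algebraMap K D k := by
    by_contra hcon
    push Not at hcon
    have hs : Function.Surjective (Algebra.linearMap K D) := fun y => by
      obtain ⟨k, hk⟩ := hcon y
      exact ⟨k, hk.symm⟩
    have h6 := LinearMap.finrank_le_finrank_of_surjective (f := Algebra.linearMap K D) hs
    rw [hd, Module.finrank_self] at h6
    omega
  obtain ⟨x, hx, hτx⟩ : ∃ x : D, (∀ k : K, x ≠ algebraMap K D k) ∧ τ x ≠ 0 := by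
    by_cases hk : ∃ k : K, x0 = algebraMap K D k
    · obtain ⟨k0, hk0⟩ := hk
      by_cases hty : τ y = 0
      · refine ⟨y + x0, fun k hk => hy (k - k0) ?_, ?_⟩
        · rw [map_sub, ← hk, hk0, add_sub_cancel_right]
        · rw [map_add, hty, zero_add]
          exact hx0
      · exact ⟨y, hy, hty⟩
    · push Not at hk
      exact ⟨x0, hk, hx0⟩
  have hdeg : ∀ v : D, (∀ k : K, v ≠ algebraMap K D k) → (minpoly K v).natDegree = 3 := by
    intro v hv
    rcases I3_deg h2 h3 K D hd v with h | h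
    · exact absurd (I3_one K D v h) (hv _)
    · exact h
  have hE3 : finrank K (trz_E K x) = 3 := V3_dim K D x (hdeg x hx)
  -- the vector `w`
  let φ : D →ₗ[K] (trz_E K x →ₗ[K] K) :=
    { toFun := fun v => τ ∘ₗ LinearMap.mulRight K v ∘ₗ (trz_E K x).subtype
      map_add' := by
        intro v w
        ext e
        simp [mul_add]
      map_smul' := by
        intro c v
        ext e
        simp }
  have hφ : ∀ (v : D) (e : trz_E K x), φ v e = τ ((e : D) * v) := fun v e => rfl
  have hker : LinearMap.ker φ ≠ ⊥ := by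
    apply LinearMap.ker_ne_bot_of_finrank_lt
    rw [Module.finrank_linearMap, Module.finrank_self, mul_one, hE3, hd]
    norm_num
  obtain ⟨w, hw, hw0⟩ := (Submodule.ne_bot_iff _).1 hker
  have hw' : ∀ e ∈ trz_E K x, τ (e * w) = 0 := by
    intro e he
    rw [← hφ w ⟨e, he⟩, LinearMap.mem_ker.1 hw]
    rfl
  -- the element `f`
  let ψ : trz_E K x →ₗ[K] K := τ ∘ₗ LinearMap.mulLeft K w⁻¹ ∘ₗ (trz_E K x).subtype
  have hψ : ∀ e : trz_E K x, ψ e = τ (w⁻¹ * e) := fun e => rfl
  have hker2 : LinearMap.ker ψ ≠ ⊥ := by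
    apply LinearMap.ker_ne_bot_of_finrank_lt
    rw [Module.finrank_self, hE3]
    norm_num
  obtain ⟨f, hf, hf0⟩ := (Submodule.ne_bot_iff _).1 hker2
  have hfa : τ (w⁻¹ * (f : D)) = 0 := by
    rw [← hψ]
    exact LinearMap.mem_ker.1 hf
  have hf0' : (f : D) ≠ 0 := fun h => hf0 (Subtype.ext h)
  have hfi : (f : D)⁻¹ ∈ trz_E K x := trz_inv f.2 hf0'
  set v : D := (f : D)⁻¹ * w with hvdef
  have hv0 : v ≠ 0 := mul_ne_zero (inv_ne_zero hf0') hw0
  have ht1 : τ v = 0 := hw' _ hfi
  have ht2 : τ v⁻¹ = 0 := by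
    rw [hvdef, mul_inv_rev, inv_inv]
    exact hfa
  have hvK : ∀ k : K, v ≠ algebraMap K D k := by
    intro k hk
    have hwE : w ∈ trz_E K x := by
      have h6 : w = k • (f : D) := by
        have h7 : (f : D) * v = w := by rw [hvdef, ← mul_assoc, mul_inv_cancel₀ hf0', one_mul]
        rw [← h7, hk, Algebra.smul_def, Algebra.commutes]
      rw [h6]
      exact Submodule.smul_mem _ _ f.2
    have h8 := hw' _ (trz_mul (trz_self x) (trz_inv hwE hw0))
    rw [mul_assoc, inv_mul_cancel₀ hw0, mul_one] at h8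
    exact hτx h8
  have hdv := hdeg v hvK
  have hc1 := hτ v hdv
  rw [ht1, neg_zero] at hc1
  obtain ⟨hm1, hm2⟩ := h5 K D v hv0
  have hc2 := hτ v⁻¹ (hm1.trans hdv)
  rw [ht2, neg_zero] at hc2
  rw [hdv] at hm2
  have hc3 := hm2 hc2
  have h0 := minpoly.aeval K v
  have hm := (minpoly.monic (Algebra.IsIntegral.isIntegral (R := K) v)).coeff_natDegree
  rw [hdv] at hm
  rw [aeval_eq_sum_range, hdv] at h0
  simp only [Finset.sum_range_succ, Finset.sum_range_zero, hm, hc1, hc3, pow_zero, pow_one,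
    one_smul, zero_smul, zero_add, add_zero] at h0
  have hvv : v * v * v = v ^ 3 := by
    rw [pow_succ, pow_two]
  refine ⟨v, -(minpoly K v).coeff 0, ?_, hvK⟩
  rw [map_neg, Algebra.algebraMap_eq_smul_one, hvv]
  exact eq_neg_of_add_eq_zero_right h0

end Pool.Agent.Helper75.PX
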